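import Mathlib
import Pool.Agent.H58.Heat.Defs
import Pool.Agent.H69.KLS.Gauss

/-!
Project HEAT (helper58), module GBa: integrability of functions of exponential growth,
exchangeability of a rotated Gaussian pair, and gradients.
-/

namespace Pool.Agent.H13.Heat

open MeasureTheory ProbabilityTheory Pool.Agent.H58.Heat

/-! ### closure properties of `EG` -/

theorem eg_nonneg {n : ℕ} {W : Type*} [NormedAddCommGroup W] {f : E n → W} (hf : EG f) :
    ∃ C : ℝ, 0 ≤ C ∧ ∀ x, ‖f x‖ ≤ C * Real.exp (C * ‖x‖) := by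
  obtain ⟨C, hC⟩ := hf
  have h0 : 0 ≤ C := by
    have h1 := (norm_nonneg _).trans (hC 0)
    exact nonneg_of_mul_nonneg_left h1 (Real.exp_pos _)
  exact ⟨C, h0, hC⟩

theorem eg_of_bound {n : ℕ} {W : Type*} [NormedAddCommGroup W] {f : E n → W} {A B : ℝ}
    (hf : ∀ x, ‖f x‖ ≤ A * Real.exp (B * ‖x‖)) : EG f := by
  refine ⟨max A B, fun x => (hf x).trans ?_⟩
  have hA : 0 ≤ A := nonneg_of_mul_nonneg_left ((norm_nonneg _).trans (hf 0)) (Real.exp_pos _)
  gcongr
  · exact le_max_left _ _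
  · exact le_max_right _ _

theorem eg_mono {n : ℕ} {W V : Type*} [NormedAddCommGroup W] [NormedAddCommGroup V] {f : E n → W}
    {g : E n → V} (hg : EG g) (h : ∀ x, ‖f x‖ ≤ ‖g x‖) : EG f := by
  obtain ⟨C, hC⟩ := hg
  exact ⟨C, fun x => (h x).trans (hC x)⟩

theorem eg_const {n : ℕ} {W : Type*} [NormedAddCommGroup W] (c : W) : EG (fun _ : E n => c) := by
  refine eg_of_bound (A := ‖c‖) (B := 0) fun x => ?_
  simp

theorem eg_add {n : ℕ} {W : Type*} [NormedAddCommGroup W] {f g : E n → W} (hf : EG f)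
    (hg : EG g) : EG (fun x => f x + g x) := by
  obtain ⟨C, hC0, hC⟩ := eg_nonneg hf
  obtain ⟨D, hD0, hD⟩ := eg_nonneg hg
  refine eg_of_bound (A := C + D) (B := C + D) fun x => ?_
  calc ‖f x + g x‖ ≤ ‖f x‖ + ‖g x‖ := norm_add_le _ _
    _ ≤ C * Real.exp (C * ‖x‖) + D * Real.exp (D * ‖x‖) := add_le_add (hC x) (hD x)
    _ ≤ C * Real.exp ((C + D) * ‖x‖) + D * Real.exp ((C + D) * ‖x‖) := by
        gcongr <;> linarith
    _ = (C + D) * Real.exp ((C + D) * ‖x‖) := by ring

theorem eg_mul {n : ℕ} {f g : E n → ℝ} (hf : EG f)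
    (hg : EG g) : EG (fun x => f x * g x) := by
  obtain ⟨C, hC0, hC⟩ := eg_nonneg hf
  obtain ⟨D, hD0, hD⟩ := eg_nonneg hg
  refine eg_of_bound (A := C * D) (B := C + D) fun x => ?_
  rw [norm_mul]
  calc ‖f x‖ * ‖g x‖ ≤ (C * Real.exp (C * ‖x‖)) * (D * Real.exp (D * ‖x‖)) :=
        mul_le_mul (hC x) (hD x) (norm_nonneg _) (by positivity)
    _ = C * D * Real.exp ((C + D) * ‖x‖) := by
        rw [add_mul, Real.exp_add]
        ring

theorem eg_neg {n : ℕ} {W : Type*} [NormedAddCommGroup W] {f : E n → W} (hf : EG f) :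
    EG (fun x => - f x) := eg_mono hf fun x => by rw [norm_neg]

theorem eg_sub {n : ℕ} {W : Type*} [NormedAddCommGroup W] {f g : E n → W} (hf : EG f)
    (hg : EG g) : EG (fun x => f x - g x) := by
  simpa only [sub_eq_add_neg] using eg_add hf (eg_neg hg)

theorem eg_sum {n : ℕ} {W ι : Type*} [NormedAddCommGroup W] (s : Finset ι) {f : ι → E n → W}
    (hf : ∀ i ∈ s, EG (f i)) : EG (fun x => ∑ i ∈ s, f i x) := by
  classical
  induction s using Finset.induction_on with
  | empty => simpa using eg_const (0 : W)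
  | insert a s ha ih =>
    simp_rw [Finset.sum_insert ha]
    exact eg_add (hf a (Finset.mem_insert_self _ _)) (ih fun i hi => hf i (Finset.mem_insert_of_mem hi))

theorem eg_norm {n : ℕ} {W : Type*} [NormedAddCommGroup W] {f : E n → W} (hf : EG f) :
    EG (fun x => ‖f x‖) := eg_mono hf fun x => by rw [norm_norm]

theorem eg_coord {n : ℕ} (i : Fin n) : EG (fun x : E n => x i) := by
  refine eg_of_bound (A := 1) (B := 1) fun x => ?_
  have h1 : ‖x i‖ ≤ ‖x‖ := PiLp.norm_apply_le x i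
  have h2 := Real.add_one_le_exp ‖x‖
  rw [one_mul, one_mul]
  linarith

/-! ### GB1 -/

theorem integrable_exp_norm_sq {n : ℕ} {l : ℝ} (hl : l < 1 / 2) :
    Integrable (fun x : E n => Real.exp (l * ‖x‖ ^ 2)) (gm n) := by
  refine ⟨by fun_prop, ?_⟩
  rw [hasFiniteIntegral_iff_ofReal (Filter.Eventually.of_forall fun x => (Real.exp_pos _).le),
    Pool.Agent.H69.KLS.gauss_exp_norm_sq hl]
  exact ENNReal.ofReal_lt_top

theorem GB1 {n : ℕ} {W : Type*} [NormedAddCommGroup W] (f : E n → W)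
    (hm : AEStronglyMeasurable f (gm n)) (hf : EG f) : Integrable f (gm n) := by
  obtain ⟨C, hC0, hC⟩ := eg_nonneg hf
  have h1 : Integrable (fun x : E n => C * Real.exp (C ^ 2) * Real.exp (1 / 4 * ‖x‖ ^ 2))
      (gm n) := (integrable_exp_norm_sq (by norm_num)).const_mul _
  refine h1.mono' hm (Filter.Eventually.of_forall fun x => (hC x).trans ?_)
  rw [mul_assoc, ← Real.exp_add]
  gcongr
  nlinarith [sq_nonneg (C - 1 / 2 * ‖x‖)]

/-! ### GB3 -/

theorem mp_rotation (n : ℕ) (t : ℝ) :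
    MeasurePreserving (fun y : E n × E n => (Real.cos t • y.1 + Real.sin t • y.2,
      -Real.sin t • y.1 + Real.cos t • y.2)) ((gm n).prod (gm n)) ((gm n).prod (gm n)) := by
  refine ⟨by fun_prop, ?_⟩
  exact IsGaussian.map_rotation_eq_self (μ := gm n) (by simp [integral_id_stdGaussian]) t

theorem mp_neg (n : ℕ) :
    MeasurePreserving (fun x : E n => -x) (gm n) (gm n) :=
  ⟨by fun_prop, stdGaussian_map (LinearIsometryEquiv.neg ℝ : E n ≃ₗᵢ[ℝ] E n)⟩

theorem mp_refl (n : ℕ) (t : ℝ) :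
    MeasurePreserving (fun y : E n × E n => (Real.cos t • y.1 + Real.sin t • y.2,
      Real.sin t • y.1 - Real.cos t • y.2)) ((gm n).prod (gm n)) ((gm n).prod (gm n)) := by
  have h1 := ((MeasurePreserving.id (gm n)).prod (mp_neg n)).comp (mp_rotation n t)
  convert h1 using 1
  ext y : 1
  simp [Prod.map, sub_eq_add_neg, add_comm]

/-- exchangeability of (X, cos X + sin Z) -/
theorem GB3 {n : ℕ} (t : ℝ) (Φ : E n × E n → ℝ) (hΦ : Measurable Φ) :
    ∫ y, Φ (y.1, Real.cos t • y.1 + Real.sin t • y.2) ∂((gm n).prod (gm n)) =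
      ∫ y, Φ (Real.cos t • y.1 + Real.sin t • y.2, y.1) ∂((gm n).prod (gm n)) := by
  have h := mp_refl n t
  have hm : Measurable (fun y : E n × E n => Φ (y.1, Real.cos t • y.1 + Real.sin t • y.2)) :=
    hΦ.comp (by fun_prop)
  have h2 := integral_map h.measurable.aemeasurable (f := fun y : E n × E n =>
    Φ (y.1, Real.cos t • y.1 + Real.sin t • y.2)) (μ := (gm n).prod (gm n))
    hm.aestronglyMeasurable
  rw [h.map_eq] at h2
  rw [h2]
  congr 1
  ext y
  have h3 : Real.cos t • (Real.cos t • y.1 + Real.sin t • y.2) +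
      Real.sin t • (Real.sin t • y.1 - Real.cos t • y.2) = y.1 := by
    have h4 : (Real.cos t * Real.cos t + Real.sin t * Real.sin t) • y.1 = y.1 := by
      have := Real.sin_sq_add_cos_sq t
      rw [show Real.cos t * Real.cos t + Real.sin t * Real.sin t = 1 by nlinarith, one_smul]
    nth_rewrite 3 [← h4]
    module
  simp only [h3]

/-! ### GB6 -/

theorem pd_eq {n : ℕ} (f : E n → ℝ) (i : Fin n) (x : E n) :
    pd f i x = ((InnerProductSpace.toDual ℝ (E n)).symm (fderiv ℝ f x)) i := by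
  have h := InnerProductSpace.toDual_symm_apply (𝕜 := ℝ) (y := fderiv ℝ f x)
    (x := EuclideanSpace.single i (1 : ℝ))
  rw [pd, ← h, EuclideanSpace.inner_single_right]
  simp

theorem norm_toDual_symm {n : ℕ} (f : E n → ℝ) (x : E n) :
    ‖(InnerProductSpace.toDual ℝ (E n)).symm (fderiv ℝ f x)‖ = ‖fderiv ℝ f x‖ :=
  LinearIsometryEquiv.norm_map _ _

/-- Cauchy-Schwarz for gradients and comparison of norms -/
theorem GB6 {n : ℕ} (f u : E n → ℝ) (x : E n) :
    |gd f u x| ≤ ‖fderiv ℝ f x‖ * ‖fderiv ℝ u x‖ ∧ gd f f x = ‖fderiv ℝ f x‖ ^ 2 := by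
  constructor
  · have h := abs_real_inner_le_norm ((InnerProductSpace.toDual ℝ (E n)).symm (fderiv ℝ f x))
      ((InnerProductSpace.toDual ℝ (E n)).symm (fderiv ℝ u x))
    rw [norm_toDual_symm, norm_toDual_symm] at h
    convert h using 2
    rw [gd, PiLp.inner_apply]
    refine Finset.sum_congr rfl fun i _ => ?_
    rw [pd_eq, pd_eq]
    simp [mul_comm]
  · rw [← norm_toDual_symm, EuclideanSpace.real_norm_sq_eq, gd]
    refine Finset.sum_congr rfl fun i _ => ?_
    rw [pd_eq]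
    ring

end Pool.Agent.H13.Heat
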