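import Mathlib
import Pool.Agent.H13.Heat.GBa

/-!
Project HEAT (helper58), module GBb: polynomial functions and the Gaussian integration by parts.
-/

namespace Pool.Agent.H13.Heat

open MeasureTheory ProbabilityTheory Pool.Agent.H58.Heat

/-! ### GB5 -/

/-- Evaluation of a polynomial. -/
noncomputable def pev {n : ℕ} (q : MvPolynomial (Fin n) ℝ) (x : E n) : ℝ :=
  MvPolynomial.eval (fun i => x i) q

theorem hasFDerivAt_coord {n : ℕ} (j : Fin n) (x : E n) :
    HasFDerivAt (fun y : E n => y j) (EuclideanSpace.proj j : E n →L[ℝ] ℝ) x :=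
  (EuclideanSpace.proj j : E n →L[ℝ] ℝ).hasFDerivAt

theorem pev_hasFDerivAt {n : ℕ} (q : MvPolynomial (Fin n) ℝ) (x : E n) :
    HasFDerivAt (pev q)
      (∑ i, pev (MvPolynomial.pderiv i q) x • (EuclideanSpace.proj i : E n →L[ℝ] ℝ)) x := by
  induction q using MvPolynomial.induction_on with
  | C a =>
    have h1 : pev (MvPolynomial.C a : MvPolynomial (Fin n) ℝ) = fun _ : E n => a := by
      funext y
      simp [pev]
    rw [h1]
    simpa [pev] using hasFDerivAt_const a x
  | add p q hp hq =>
    have h1 : pev (p + q) = fun y : E n => pev p y + pev q y := by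
      funext y
      simp [pev]
    rw [h1]
    refine (hp.add hq).congr_fderiv ?_
    rw [← Finset.sum_add_distrib]
    refine Finset.sum_congr rfl fun i _ => ?_
    rw [← add_smul]
    simp [pev]
  | mul_X p j hp =>
    have h1 : pev (p * MvPolynomial.X j) = fun y : E n => pev p y * y j := by
      funext y
      simp [pev]
    rw [h1]
    refine (hp.mul (hasFDerivAt_coord j x)).congr_fderiv ?_
    rw [Finset.smul_sum]
    have h2 : pev p x • (EuclideanSpace.proj j : E n →L[ℝ] ℝ) =
        ∑ i, (if i = j then pev p x else 0) • (EuclideanSpace.proj i : E n →L[ℝ] ℝ) := by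
      rw [Finset.sum_eq_single j]
      · simp
      · intro i _ hij
        simp [hij]
      · simp
    rw [h2, ← Finset.sum_add_distrib]
    refine Finset.sum_congr rfl fun i _ => ?_
    rw [smul_smul, ← add_smul]
    congr 1
    rw [Derivation.leibniz]
    by_cases hij : i = j
    · subst hij
      simp [pev]
    · have : MvPolynomial.pderiv i (MvPolynomial.X j : MvPolynomial (Fin n) ℝ) = 0 :=
        MvPolynomial.pderiv_X_of_ne (fun h => hij h.symm)
      simp [pev, this, hij]

theorem pev_pd {n : ℕ} (q : MvPolynomial (Fin n) ℝ) (i : Fin n) (x : E n) :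
    pd (pev q) i x = pev (MvPolynomial.pderiv i q) x := by
  rw [pd, (pev_hasFDerivAt q x).fderiv]
  rw [sum_apply, Finset.sum_eq_single i]
  · simp
  · intro j _ hij
    simp [hij]
  · simp

theorem pev_contDiff {n : ℕ} (q : MvPolynomial (Fin n) ℝ) (m : WithTop ℕ∞) :
    ContDiff ℝ m (pev q) := by
  induction q using MvPolynomial.induction_on with
  | C a =>
    have h1 : pev (MvPolynomial.C a : MvPolynomial (Fin n) ℝ) = fun _ : E n => a := by
      funext y
      simp [pev]
    rw [h1]
    exact contDiff_const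
  | add p q hp hq =>
    have h1 : pev (p + q) = fun y : E n => pev p y + pev q y := by
      funext y
      simp [pev]
    rw [h1]
    exact hp.add hq
  | mul_X p j hp =>
    have h1 : pev (p * MvPolynomial.X j) = fun y : E n => pev p y * y j := by
      funext y
      simp [pev]
    rw [h1]
    exact hp.mul (EuclideanSpace.proj j : E n →L[ℝ] ℝ).contDiff

theorem pev_eg {n : ℕ} (q : MvPolynomial (Fin n) ℝ) : EG (pev q) := by
  induction q using MvPolynomial.induction_on with
  | C a =>
    have h1 : pev (MvPolynomial.C a : MvPolynomial (Fin n) ℝ) = fun _ : E n => a := by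
      funext y
      simp [pev]
    rw [h1]
    exact eg_const a
  | add p q hp hq =>
    have h1 : pev (p + q) = fun y : E n => pev p y + pev q y := by
      funext y
      simp [pev]
    rw [h1]
    exact eg_add hp hq
  | mul_X p j hp =>
    have h1 : pev (p * MvPolynomial.X j) = fun y : E n => pev p y * y j := by
      funext y
      simp [pev]
    rw [h1]
    exact eg_mul hp (eg_coord j)

theorem pev_eg_fderiv {n : ℕ} (q : MvPolynomial (Fin n) ℝ) : EG (fderiv ℝ (pev q)) := by
  have h1 : fderiv ℝ (pev q) = fun x : E n =>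
      ∑ i, pev (MvPolynomial.pderiv i q) x • (EuclideanSpace.proj i : E n →L[ℝ] ℝ) := by
    funext x
    exact (pev_hasFDerivAt q x).fderiv
  rw [h1]
  refine eg_sum _ fun i _ => ?_
  have h2 : EG (fun x : E n => pev (MvPolynomial.pderiv i q) x *
      ‖(EuclideanSpace.proj i : E n →L[ℝ] ℝ)‖) := eg_mul (pev_eg _) (eg_const _)
  refine eg_mono h2 fun x => ?_
  rw [norm_smul, norm_mul, norm_norm]

theorem isPoly_iff {n : ℕ} (f : E n → ℝ) : IsPoly f ↔ ∃ q, f = pev q := by
  constructor
  · rintro ⟨q, hq⟩
    exact ⟨q, funext hq⟩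
  · rintro ⟨q, rfl⟩
    exact ⟨q, fun _ => rfl⟩

/-- facts on polynomial functions -/
theorem GB5 {n : ℕ} (f : E n → ℝ) (hf : IsPoly f) :
    ContDiff ℝ ⊤ f ∧ EG f ∧ EG (fderiv ℝ f) ∧ (∀ i, IsPoly (pd f i)) ∧ IsPoly (NN f) := by
  obtain ⟨q, rfl⟩ := (isPoly_iff f).1 hf
  have hpd : ∀ (q : MvPolynomial (Fin n) ℝ) (i : Fin n),
      pd (pev q) i = pev (MvPolynomial.pderiv i q) := fun q i => funext fun x => pev_pd q i x
  refine ⟨pev_contDiff q _, pev_eg q, pev_eg_fderiv q, fun i => ?_, ?_⟩
  · exact ⟨MvPolynomial.pderiv i q, fun x => pev_pd q i x⟩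
  · refine ⟨∑ i, (MvPolynomial.X i * MvPolynomial.pderiv i q -
      MvPolynomial.pderiv i (MvPolynomial.pderiv i q)), fun x => ?_⟩
    rw [NN, map_sum]
    refine Finset.sum_congr rfl fun i _ => ?_
    rw [hpd, hpd]
    simp [pev]

/-! ### the Gaussian density -/

theorem pi_gauss (n : ℕ) : Measure.pi (fun _ : Fin n => gaussianReal 0 1) =
    (volume : Measure (Fin n → ℝ)).withDensity
      (fun x => ENNReal.ofReal (∏ i, gaussianPDFReal 0 1 (x i))) := by
  refine Measure.pi_eq fun s hs => ?_
  have hbox : MeasurableSet (Set.univ.pi s : Set (Fin n → ℝ)) := MeasurableSet.univ_pi hs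
  have h0 : ∀ x : Fin n → ℝ, 0 ≤ ∏ i, gaussianPDFReal 0 1 (x i) := fun x =>
    Finset.prod_nonneg fun i _ => gaussianPDFReal_nonneg _ _ _
  have hint : Integrable (fun x : Fin n → ℝ => ∏ i, gaussianPDFReal 0 1 (x i)) :=
    Integrable.fintype_prod fun _ => integrable_gaussianPDFReal _ _
  rw [withDensity_apply _ hbox, ← ofReal_integral_eq_lintegral_ofReal hint.integrableOn
    (Filter.Eventually.of_forall h0), ← integral_indicator hbox]
  have hind : (Set.univ.pi s).indicator (fun x : Fin n → ℝ => ∏ i, gaussianPDFReal 0 1 (x i))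
      = fun x => ∏ i, (s i).indicator (gaussianPDFReal 0 1) (x i) := by
    ext x
    by_cases hx : x ∈ Set.univ.pi s
    · rw [Set.indicator_of_mem hx]
      refine Finset.prod_congr rfl fun i _ => ?_
      rw [Set.indicator_of_mem (hx i (Set.mem_univ i))]
    · rw [Set.indicator_of_notMem hx]
      simp only [Set.mem_pi, Set.mem_univ, true_implies, not_forall] at hx
      obtain ⟨i, hi⟩ := hx
      symm
      apply Finset.prod_eq_zero (Finset.mem_univ i)
      rw [Set.indicator_of_notMem hi]
  rw [hind, integral_fintype_prod_volume_eq_prod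
    (fun i => (s i).indicator (gaussianPDFReal 0 1)), ENNReal.ofReal_prod_of_nonneg]
  · refine Finset.prod_congr rfl fun i _ => ?_
    rw [integral_indicator (hs i), gaussianReal_apply_eq_integral _ one_ne_zero]
  · intro i _
    exact integral_nonneg fun x => Set.indicator_nonneg (fun _ _ => gaussianPDFReal_nonneg _ _ _) _

/-- The standard Gaussian density. -/
noncomputable def phi {n : ℕ} (x : E n) : ℝ :=
  (Real.sqrt (2 * Real.pi))⁻¹ ^ n * Real.exp (-(‖x‖ ^ 2 / 2))

theorem phi_pos {n : ℕ} (x : E n) : 0 < phi x := by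
  unfold phi
  positivity

theorem phi_eq {n : ℕ} (x : Fin n → ℝ) :
    phi (WithLp.toLp 2 x : E n) = ∏ i, gaussianPDFReal 0 1 (x i) := by
  rw [phi, EuclideanSpace.real_norm_sq_eq]
  simp only [gaussianPDFReal_def, NNReal.coe_one, mul_one, sub_zero]
  rw [Finset.prod_mul_distrib, Finset.prod_const, Finset.card_univ, Fintype.card_fin,
    ← Real.exp_sum]
  congr 2
  rw [Finset.sum_div, ← Finset.sum_neg_distrib]
  refine Finset.sum_congr rfl fun i _ => ?_
  ring

theorem phi_contDiff {n : ℕ} (m : WithTop ℕ∞) : ContDiff ℝ m (phi : E n → ℝ) := by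
  unfold phi
  refine contDiff_const.mul (Real.contDiff_exp.comp ?_)
  exact ((contDiff_norm_sq ℝ).div_const 2).neg

theorem gm_density (n : ℕ) : gm n =
    (volume : Measure (E n)).withDensity (fun x => ENNReal.ofReal (phi x)) := by
  have hphi : Measurable (fun x : E n => ENNReal.ofReal (phi x)) :=
    ((phi_contDiff (n := n) 0).continuous.measurable).ennreal_ofReal
  refine Measure.ext fun s hs => ?_
  rw [gm, ← map_pi_eq_stdGaussian, Measure.map_apply (by fun_prop) hs, pi_gauss,
    withDensity_apply _ (hs.preimage (by fun_prop)), withDensity_apply _ hs,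
    ← (PiLp.volume_preserving_toLp (Fin n)).setLIntegral_comp_preimage hs hphi]
  refine lintegral_congr fun x => ?_
  rw [phi_eq]

theorem integral_gm {n : ℕ} (w : E n → ℝ) : ∫ x, w x ∂gm n = ∫ x, phi x * w x := by
  have hphi : Measurable (fun x : E n => ENNReal.ofReal (phi x)) :=
    ((phi_contDiff (n := n) 0).continuous.measurable).ennreal_ofReal
  rw [gm_density, integral_withDensity_eq_integral_toReal_smul₀ hphi.aemeasurable
    (Filter.Eventually.of_forall fun x => ENNReal.ofReal_lt_top)]
  refine integral_congr_ae (Filter.Eventually.of_forall fun x => ?_)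
  simp only [ENNReal.toReal_ofReal (phi_pos x).le, smul_eq_mul]

theorem integrable_gm {n : ℕ} (w : E n → ℝ) :
    Integrable w (gm n) ↔ Integrable (fun x => phi x * w x) := by
  have hphi : Measurable (fun x : E n => ENNReal.ofReal (phi x)) :=
    ((phi_contDiff (n := n) 0).continuous.measurable).ennreal_ofReal
  rw [gm_density, integrable_withDensity_iff_integrable_smul' hphi
    (Filter.Eventually.of_forall fun x => ENNReal.ofReal_lt_top)]
  refine integrable_congr (Filter.Eventually.of_forall fun x => ?_)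
  simp only [ENNReal.toReal_ofReal (phi_pos x).le, smul_eq_mul]

theorem phi_pd {n : ℕ} (i : Fin n) (x : E n) :
    fderiv ℝ phi x (EuclideanSpace.single i 1) = -(x i * phi x) := by
  have h1 : HasFDerivAt (fun y : E n => ‖y‖ ^ 2) (2 • (innerSL ℝ x)) x :=
    (hasStrictFDerivAt_norm_sq x).hasFDerivAt
  have h2 : HasFDerivAt (fun y : E n => -(‖y‖ ^ 2 / 2)) (-((2 : ℝ)⁻¹ • (2 • (innerSL ℝ x)))) x := by
    have h5 := (h1.mul_const (2 : ℝ)⁻¹).neg
    simp only [div_eq_mul_inv]
    exact h5
  have h3 := (h2.exp).const_mul ((Real.sqrt (2 * Real.pi))⁻¹ ^ n)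
  have h4 : fderiv ℝ (phi : E n → ℝ) x = _ := h3.fderiv
  rw [h4]
  simp [phi, EuclideanSpace.inner_single_right]
  ring

/-- Stein's identity. -/
theorem stein {n : ℕ} (w : E n → ℝ) (hw : ContDiff ℝ 1 w) (h0 : EG w) (h1 : EG (fderiv ℝ w))
    (i : Fin n) : ∫ x, x i * w x ∂gm n = ∫ x, pd w i x ∂gm n := by
  have hd : Differentiable ℝ w := hw.differentiable (by norm_num)
  have hd' : Differentiable ℝ (phi : E n → ℝ) := (phi_contDiff 1).differentiable (by norm_num)
  have hc : Continuous (pd w i) := (hw.continuous_fderiv (by norm_num)).clm_apply continuous_const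
  have hpd : EG (pd w i) := by
    refine eg_mono h1 fun x => ?_
    have h := (fderiv ℝ w x).le_opNorm (EuclideanSpace.single i 1)
    simpa [pd] using h
  have i1 : Integrable (fun x => w x) (gm n) := GB1 _ hw.continuous.aestronglyMeasurable h0
  have i2 : Integrable (fun x => x i * w x) (gm n) :=
    GB1 _ (by
      have := hw.continuous
      fun_prop) (eg_mul (eg_coord i) h0)
  have i3 : Integrable (pd w i) (gm n) := GB1 _ hc.aestronglyMeasurable hpd
  rw [integrable_gm] at i1 i2 i3
  rw [integral_gm, integral_gm]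
  have h := integral_mul_fderiv_eq_neg_fderiv_mul_of_integrable (μ := (volume : Measure (E n)))
    (f := phi) (g := w) (v := EuclideanSpace.single i 1) ?_ i3 i1 (fun x _ => hd' x)
    (fun x _ => hd x)
  · simp only [pd]
    rw [h, ← integral_neg]
    refine integral_congr_ae (Filter.Eventually.of_forall fun x => ?_)
    simp only [phi_pd]
    ring
  · refine i2.neg.congr (Filter.Eventually.of_forall fun x => ?_)
    simp only [phi_pd, Pi.neg_apply]
    ring

theorem pd_eg {n : ℕ} {w : E n → ℝ} (h1 : EG (fderiv ℝ w)) (i : Fin n) : EG (pd w i) := by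
  refine eg_mono h1 fun x => ?_
  have h := (fderiv ℝ w x).le_opNorm (EuclideanSpace.single i 1)
  simpa [pd] using h

/-- integration by parts -/
theorem GB2 {n : ℕ} (f u : E n → ℝ) (hf : IsPoly f) (hu : ContDiff ℝ 1 u) (h0 : EG u)
    (h1 : EG (fderiv ℝ u)) :
    ∫ x, NN f x * u x ∂gm n = ∫ x, gd f u x ∂gm n := by
  obtain ⟨-, -, -, hpd, -⟩ := GB5 f hf
  have hu' : Differentiable ℝ u := hu.differentiable (by norm_num)
  have huc : ∀ i, Continuous (pd u i) := fun i =>
    (hu.continuous_fderiv (by norm_num)).clm_apply continuous_const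
  have key : ∀ i : Fin n, Integrable (fun x => (x i * pd f i x - pd (pd f i) i x) * u x) (gm n) ∧
      Integrable (fun x => pd f i x * pd u i x) (gm n) ∧
      ∫ x, (x i * pd f i x - pd (pd f i) i x) * u x ∂gm n = ∫ x, pd f i x * pd u i x ∂gm n := by
    intro i
    obtain ⟨hc1, he1, hd1, hp1, -⟩ := GB5 (pd f i) (hpd i)
    obtain ⟨hc2, he2, -, -, -⟩ := GB5 (pd (pd f i) i) (hp1 i)
    have hw : ContDiff ℝ 1 (fun x => pd f i x * u x) := (hc1.of_le le_top).mul hu
    have hfd : ∀ x, fderiv ℝ (fun x => pd f i x * u x) x =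
        pd f i x • fderiv ℝ u x + u x • fderiv ℝ (pd f i) x := fun x =>
      fderiv_fun_mul ((hc1.differentiable (by simp)) x) (hu' x)
    have hs := stein (fun x => pd f i x * u x) hw (eg_mul he1 h0) (by
      have e1 : EG (fun x => pd f i x • fderiv ℝ u x) :=
        eg_mono (eg_mul he1 (eg_norm h1)) fun x => by
          rw [norm_smul, norm_mul, norm_norm]
      have e2 : EG (fun x => u x • fderiv ℝ (pd f i) x) :=
        eg_mono (eg_mul h0 (eg_norm hd1)) fun x => by
          rw [norm_smul, norm_mul, norm_norm]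
      have e3 := eg_add e1 e2
      refine eg_mono e3 fun x => ?_
      rw [hfd x]) i
    have hpdw : ∀ x, pd (fun x => pd f i x * u x) i x =
        pd f i x * pd u i x + pd (pd f i) i x * u x := by
      intro x
      rw [pd, hfd x]
      simp only [pd, add_apply, smul_apply, smul_eq_mul]
      ring
    simp only [hpdw] at hs
    have hu0 := hu.continuous
    have hc1' := hc1.continuous
    have hc2' := hc2.continuous
    have hc3 := huc i
    have j1 : Integrable (fun x => x i * (pd f i x * u x)) (gm n) :=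
      GB1 _ (by fun_prop) (eg_mul (eg_coord i) (eg_mul he1 h0))
    have j2 : Integrable (fun x => pd f i x * pd u i x) (gm n) :=
      GB1 _ (by fun_prop) (eg_mul he1 (pd_eg h1 i))
    have j3 : Integrable (fun x => pd (pd f i) i x * u x) (gm n) :=
      GB1 _ (by fun_prop) (eg_mul he2 h0)
    rw [integral_add j2 j3] at hs
    refine ⟨?_, j2, ?_⟩
    · refine (j1.sub j3).congr (Filter.Eventually.of_forall fun x => ?_)
      simp only [Pi.sub_apply]
      ring
    · have e : ∫ x, (x i * pd f i x - pd (pd f i) i x) * u x ∂gm n =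
          ∫ x, (x i * (pd f i x * u x) - pd (pd f i) i x * u x) ∂gm n := by
        refine integral_congr_ae (Filter.Eventually.of_forall fun x => ?_)
        simp only
        ring
      rw [e, integral_sub j1 j3, hs]
      ring
  simp only [NN, gd, Finset.sum_mul]
  rw [integral_finsetSum _ fun i _ => (key i).1, integral_finsetSum _ fun i _ => (key i).2.1]
  exact Finset.sum_congr rfl fun i _ => (key i).2.2

end Pool.Agent.H13.Heat
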