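import Mathlib
import Pool.Agent.H13.Heat.GBb

/-!
Project HEAT (helper58), module GBc: the Poincare-type estimate along rotations.
-/

namespace Pool.Agent.H13.Heat

open MeasureTheory ProbabilityTheory Pool.Agent.H58.Heat

/-- second moment of a linear functional under the Gaussian measure -/
theorem lintegral_dual_sq {n : ℕ} (L : E n →L[ℝ] ℝ) :
    ∫⁻ z, ENNReal.ofReal (L z ^ 2) ∂gm n = ENNReal.ofReal (‖L‖ ^ 2) := by
  have h1 : Integrable (fun z => L z ^ 2) (gm n) := by
    have h2 : EG (fun z : E n => L z) := by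
      refine eg_of_bound (A := ‖L‖) (B := 1) fun z => ?_
      have h3 := L.le_opNorm z
      have h4 := Real.add_one_le_exp ‖z‖
      have h5 := norm_nonneg L
      rw [one_mul]
      nlinarith
    refine GB1 _ (by fun_prop) ?_
    have h6 := eg_mul h2 h2
    simpa only [sq] using h6
  rw [← ofReal_integral_eq_lintegral_ofReal h1 (Filter.Eventually.of_forall fun z => sq_nonneg _)]
  congr 1
  have h2 := variance_dual_stdGaussian (E := E n) L
  rw [variance_eq_integral L.continuous.aemeasurable, integral_strongDual_stdGaussian] at h2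
  simpa using h2

/-- Jensen on the unit interval -/
theorem sq_integral_le {φ : ℝ → ℝ} (hφ : Continuous φ) :
    (∫ u in (0 : ℝ)..1, φ u) ^ 2 ≤ ∫ u in (0 : ℝ)..1, φ u ^ 2 := by
  set m := ∫ u in (0 : ℝ)..1, φ u with hm
  have h0 : 0 ≤ ∫ u in (0 : ℝ)..1, (φ u - m) ^ 2 :=
    intervalIntegral.integral_nonneg zero_le_one fun u _ => sq_nonneg _
  have i1 : IntervalIntegrable (fun u => φ u ^ 2) volume 0 1 :=
    (hφ.pow 2).intervalIntegrable _ _
  have i2 : IntervalIntegrable (fun u => 2 * m * φ u) volume 0 1 :=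
    (continuous_const.mul hφ).intervalIntegrable _ _
  have i3 : IntervalIntegrable (fun _ : ℝ => m ^ 2) volume 0 1 :=
    continuous_const.intervalIntegrable _ _
  have e : ∫ u in (0 : ℝ)..1, (φ u - m) ^ 2 =
      (∫ u in (0 : ℝ)..1, φ u ^ 2) - 2 * m * m + m ^ 2 := by
    have e1 : ∀ u, (φ u - m) ^ 2 = φ u ^ 2 - 2 * m * φ u + m ^ 2 := fun u => by ring
    simp_rw [e1]
    rw [intervalIntegral.integral_add (i1.sub i2) i3, intervalIntegral.integral_sub i1 i2,
      intervalIntegral.integral_const_mul, ← hm]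
    simp
  rw [e] at h0
  nlinarith

/-- pointwise estimate along the rotation -/
theorem point_le {n : ℕ} {F : E n → ℝ} (hF : ContDiff ℝ 1 F) (t : ℝ) (y : E n × E n) :
    ENNReal.ofReal ((F y.1 - F (Real.cos t • y.1 + Real.sin t • y.2)) ^ 2) ≤
      ENNReal.ofReal (t ^ 2) * ∫⁻ u in Set.Ioc (0 : ℝ) 1,
        ENNReal.ofReal ((fderiv ℝ F (Real.cos (t * u) • y.1 + Real.sin (t * u) • y.2)
          (-Real.sin (t * u) • y.1 + Real.cos (t * u) • y.2)) ^ 2) := by
  have hd : Differentiable ℝ F := hF.differentiable (by norm_num)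
  have hc : Continuous (fderiv ℝ F) := hF.continuous_fderiv (by norm_num)
  set φ : ℝ → ℝ := fun u => fderiv ℝ F (Real.cos (t * u) • y.1 + Real.sin (t * u) • y.2)
          (-Real.sin (t * u) • y.1 + Real.cos (t * u) • y.2) with hφ
  have hφc : Continuous φ := by
    refine (hc.comp (by fun_prop)).clm_apply (by fun_prop)
  have hder : ∀ u : ℝ, HasDerivAt
      (fun u => F (Real.cos (t * u) • y.1 + Real.sin (t * u) • y.2)) (t * φ u) u := by
    intro u
    have h1 : HasDerivAt (fun u : ℝ => t * u) t u := by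
      simpa using (hasDerivAt_id u).const_mul t
    have h2 : HasDerivAt (fun u => Real.cos (t * u) • y.1 + Real.sin (t * u) • y.2)
        ((-Real.sin (t * u) * t) • y.1 + (Real.cos (t * u) * t) • y.2) u :=
      (h1.cos.smul_const y.1).add (h1.sin.smul_const y.2)
    have h3 := ((hd _).hasFDerivAt.comp_hasDerivAt u h2)
    refine h3.congr_deriv ?_
    have h4 : (-Real.sin (t * u) * t) • y.1 + (Real.cos (t * u) * t) • y.2 =
        t • (-Real.sin (t * u) • y.1 + Real.cos (t * u) • y.2) := by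
      module
    rw [h4, map_smul, smul_eq_mul]
  have hftc := intervalIntegral.integral_eq_sub_of_hasDerivAt (a := (0 : ℝ)) (b := 1)
    (fun u _ => hder u) ((continuous_const.mul hφc).intervalIntegrable _ _)
  rw [intervalIntegral.integral_const_mul] at hftc
  simp only [mul_one, mul_zero, Real.cos_zero, Real.sin_zero, one_smul, zero_smul,
    add_zero] at hftc
  have h5 : (F y.1 - F (Real.cos t • y.1 + Real.sin t • y.2)) ^ 2 =
      t ^ 2 * (∫ u in (0 : ℝ)..1, φ u) ^ 2 := by
    rw [← mul_pow, hftc]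
    ring
  rw [h5]
  calc ENNReal.ofReal (t ^ 2 * (∫ u in (0 : ℝ)..1, φ u) ^ 2)
      ≤ ENNReal.ofReal (t ^ 2 * ∫ u in (0 : ℝ)..1, φ u ^ 2) := by
        apply ENNReal.ofReal_le_ofReal
        exact mul_le_mul_of_nonneg_left (sq_integral_le hφc) (sq_nonneg t)
    _ = ENNReal.ofReal (t ^ 2) * ∫⁻ u in Set.Ioc (0 : ℝ) 1, ENNReal.ofReal (φ u ^ 2) := by
        rw [ENNReal.ofReal_mul (sq_nonneg t), intervalIntegral.integral_of_le zero_le_one,
          ofReal_integral_eq_lintegral_ofReal]
        · exact ((hφc.pow 2).integrableOn_Icc).mono_set Set.Ioc_subset_Icc_self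
        · exact Filter.Eventually.of_forall fun u => sq_nonneg _

/-- Poincare-type estimate along rotations -/
theorem GB4 {n : ℕ} (F : E n → ℝ) (hF : ContDiff ℝ 1 F) (h0 : EG F) (h1 : EG (fderiv ℝ F))
    (t : ℝ) :
    ∫ y, (F y.1 - F (Real.cos t • y.1 + Real.sin t • y.2)) ^ 2 ∂((gm n).prod (gm n)) ≤
      t ^ 2 * ∫ x, ‖fderiv ℝ F x‖ ^ 2 ∂gm n := by
  have hc : Continuous (fderiv ℝ F) := hF.continuous_fderiv (by norm_num)
  have hFc := hF.continuous
  have hint : Integrable (fun x => ‖fderiv ℝ F x‖ ^ 2) (gm n) := by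
    refine GB1 _ (by fun_prop) ?_
    have := eg_mul (eg_norm h1) (eg_norm h1)
    simpa only [sq] using this
  have key : ∫⁻ y, ENNReal.ofReal ((F y.1 - F (Real.cos t • y.1 + Real.sin t • y.2)) ^ 2)
      ∂((gm n).prod (gm n)) ≤ ENNReal.ofReal (t ^ 2 * ∫ x, ‖fderiv ℝ F x‖ ^ 2 ∂gm n) := by
    calc ∫⁻ y, ENNReal.ofReal ((F y.1 - F (Real.cos t • y.1 + Real.sin t • y.2)) ^ 2)
        ∂((gm n).prod (gm n))
        ≤ ∫⁻ y, (ENNReal.ofReal (t ^ 2) * ∫⁻ u in Set.Ioc (0 : ℝ) 1,
            ENNReal.ofReal ((fderiv ℝ F (Real.cos (t * u) • y.1 + Real.sin (t * u) • y.2)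
            (-Real.sin (t * u) • y.1 + Real.cos (t * u) • y.2)) ^ 2))
            ∂((gm n).prod (gm n)) := lintegral_mono fun y => point_le hF t y
      _ = ENNReal.ofReal (t ^ 2) * ∫⁻ u in Set.Ioc (0 : ℝ) 1, ∫⁻ y,
            ENNReal.ofReal ((fderiv ℝ F (Real.cos (t * u) • y.1 + Real.sin (t * u) • y.2)
            (-Real.sin (t * u) • y.1 + Real.cos (t * u) • y.2)) ^ 2)
            ∂((gm n).prod (gm n)) := by
          rw [lintegral_const_mul' _ _ ENNReal.ofReal_ne_top, lintegral_lintegral_swap]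
          refine Continuous.aemeasurable ?_
          refine ENNReal.continuous_ofReal.comp (Continuous.pow ?_ 2)
          exact (hc.comp (by fun_prop)).clm_apply (by fun_prop)
      _ = ENNReal.ofReal (t ^ 2) * ∫⁻ _u in Set.Ioc (0 : ℝ) 1,
            ENNReal.ofReal (∫ x, ‖fderiv ℝ F x‖ ^ 2 ∂gm n) := by
          congr 1
          refine lintegral_congr fun u => ?_
          have hm : Measurable (fun y : E n × E n =>
              ENNReal.ofReal ((fderiv ℝ F y.1 y.2) ^ 2)) := by
            refine Continuous.measurable ?_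
            refine ENNReal.continuous_ofReal.comp (Continuous.pow ?_ 2)
            exact (hc.comp (by fun_prop)).clm_apply (by fun_prop)
          rw [(mp_rotation n (t * u)).lintegral_comp hm, lintegral_prod _ hm.aemeasurable,
            ofReal_integral_eq_lintegral_ofReal hint
            (Filter.Eventually.of_forall fun x => sq_nonneg _)]
          exact lintegral_congr fun x => lintegral_dual_sq (fderiv ℝ F x)
      _ = ENNReal.ofReal (t ^ 2 * ∫ x, ‖fderiv ℝ F x‖ ^ 2 ∂gm n) := by
          rw [ENNReal.ofReal_mul (sq_nonneg t)]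
          simp
  have hnn : 0 ≤ t ^ 2 * ∫ x, ‖fderiv ℝ F x‖ ^ 2 ∂gm n :=
    mul_nonneg (sq_nonneg _) (integral_nonneg fun x => sq_nonneg _)
  rw [integral_eq_lintegral_of_nonneg_ae (Filter.Eventually.of_forall fun y => sq_nonneg _)
    (by
      refine Continuous.aestronglyMeasurable ?_
      fun_prop)]
  exact ENNReal.toReal_le_of_le_ofReal hnn key

end Pool.Agent.H13.Heat
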